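import Pool.Agent.Helper61_EQC.FIN
import Pool.Agent.Helper33_EQC.BAL
import Pool.Agent.Helper33_EQC.STC
import Pool.Agent.Helper27_EQC.EDM
import Pool.Agent.Helper95_EQC.SCO
import Pool.Agent.Helper70_EQC.HUB
import Pool.Agent.Helper24_EQC.INJ
import Pool.Agent.Helper6_EQC.MAT
import Pool.Agent.Helper52_EQC.ORI
import Pool.Agent.Helper52_EQC.RNK
import Pool.Agent.Helper70_EQC.DAT
import Pool.Agent.Helper49_EQC.CNT
import Pool.Agent.Helper69_EQC.SEL
import Pool.Agent.Helper70_EQC.WIN
import Pool.Agent.Helper92_EQC.SUP
import Pool.Agent.Helper49_EQC.EDG
import Pool.Agent.Helper81_EQC.FRV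
import Pool.Agent.Helper76_EQC.LOD
import Pool.Agent.Helper26_EQC.LOW
import Pool.Agent.Helper15_EQC.CNI
import Pool.Agent.Helper62_EQC.STR
import Pool.Agent.Helper15_EQC.TYP
import Pool.Agent.Helper95_EQC.KKP
import Pool.Agent.Helper19_EQC.FLP
import Pool.Agent.Helper41_EQC.CBL
import Pool.Agent.Helper69_EQC.DUM
import Pool.Agent.Helper53_EQC.EXT
import Pool.Agent.Helper64_EQC.GAM
import Pool.Agent.Helper97_EQC.KA1
import Pool.Agent.Helper49_EQC.KAP
import Pool.Agent.Helper70_EQC.SUM
import Pool.Agent.Helper70_EQC.DIG
import Pool.Agent.Helper75_EQC.Prp
import Pool.Agent.Helper70_EQC.EQU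
import Pool.Agent.Helper3_EQC.SML

/-!
# An absolute constant for equitable proper labellings

There is an absolute constant `k` such that every nice finite graph (no component is a single edge)
has an equitable proper `k`-labelling: labels in `{1, …, k}`, adjacent vertices have different sums, and
any two labels that are used are used equally often up to one.

Idea.  Labels are pairs (colour, fine label).  An item is a pair of edges with the same colour and
exchangeable fine labels, so that all adaptive steps preserve all label counts exactly.  Colours come from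
a strong colouring of a graph of bounded degree and separate adjacent vertices of low degree for ever;
vertices of high degree are separated by an algorithm in the style of Kalkowski, Karonski and
Pfender which only flips items; the items live at hubs (cherries) and the last vertices use the edges
of a maximal matching.
-/

open SimpleGraph Pool.Agent.Helper51_Equitable Pool.Agent.EQC

namespace Pool.Agent.Results.MP_3faef8_co.AbsoluteConstant

/-- **Main result.** There is a constant `k` such that every nice finite graph has an equitable
proper `k`-labelling. -/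
theorem result : ∃ k : ℕ, ∀ (V : Type) [Fintype V] (G : SimpleGraph V), Nice G →
    ∃ ℓ : Sym2 V → ℕ, IsEquitableProper G k ℓ := by
  have hStr : StrStmt := H62.str
    (H70.dat H6.mat (H52.ori H33.bal) H52.rnk (H70.hub H33.bal))
    (H69.sel H49.cntS) (H70.win H24.inj) (H92.sup H24.inj) H49.edg H81.frv H76.lod H26.low H15c.cni
  have hKap : KapStmt := H49.kap (H53.ext H69.dum)
    (H97.ka1 H41.cbl (H95.sco H33.stc H27.edm) H64.gam)
  exact H61.fin hStr H15.typ H95.kkp H19.flp hKap H70.sum (H75.prp H70.sum H70.dig) H70.equ
    (H3.sml H70.sum)

end Pool.Agent.Results.MP_3faef8_co.AbsoluteConstant
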