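import Pool.Agent.Helper89_EQB.MAI

/-!
# Equitable proper 3-labellings of bipartite graphs

Every nice bipartite graph `G` with `8 |V| ≤ |E|` (average degree at least 16; connected or not, any
minimum degree, bridges allowed) has an equitable proper 3-labelling.

Idea.  Let `X`, `Y` be the sides and let `J` be a set of edges with odd degrees on `X` and even degrees
on `Y`.  Label 2 outside `J`, and at every vertex of `Y` label half of the edges of `J` with 1 and
half with 3.  The sums on `Y` are even, those on `X` odd, and 1 and 3 are used equally often.
The size of `J` is made exactly `2|E|/3` (up to rounding) with a large family of disjoint even sets of edges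
of logarithmic size and a spanning forest.  A component with both sides odd has one exceptional vertex: a leaf
or a local extremum of the degree on an edge that is not a bridge.
-/

open SimpleGraph Pool.Agent.Helper51_Equitable Pool.Agent.EQB

namespace Pool.Agent.Results.MP_3faef8_co.BipartiteGraphs

/-- **Main result.** Every nice bipartite graph with at least `8 |V|` edges has an equitable proper
3-labelling. -/
theorem result (V : Type) [Fintype V] (G : SimpleGraph V) (hN : Nice G) (hB : G.IsBipartite)
    (hm : 8 * Fintype.card V ≤ G.edgeSet.ncard) : ∃ ℓ : Sym2 V → ℕ, IsEquitableProper G 3 ℓ := by
  have h1 : (edges G).card = G.edgeSet.ncard := by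
    rw [← Set.ncard_coe_finset]
    congr 1
    ext e
    exact mem_edges
  rw [← h1] at hm
  exact H89.main V G hN hB hm

end Pool.Agent.Results.MP_3faef8_co.BipartiteGraphs
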