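import Mathlib

/-!
# The equitable 1-2-3 conjecture for disjoint unions of triangles, six-cycles and `K₄`'s

Let `G` be the disjoint union of `a` triangles, `c` six-cycles and `b` copies of `K₄`, `a + b + c ≥ 1`.
We prove that the equitable parameter of `G` is `4` if `b` is odd and `3` if `b` is even.  So every such
graph with `b` odd, other than `K₄` itself, is a counterexample to the equitable 1-2-3 conjecture; for
instance `K₃ ∪ K₄` and `3K₄`.

Reason: in a proper `3`-labelling every triangle uses each of the labels `1,2,3` exactly once, every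
six-cycle uses each of them exactly twice, and every `K₄` uses all three labels and uses the label `2`
an odd number of times.  An equitable proper `3`-labelling of `G` has to use the label `2` exactly
`a + 2b + 2c` times, so the `K₄`'s use it `2b` times, a sum of `b` odd numbers; so `b` is even.
-/

open SimpleGraph Finset

namespace Pool.Agent.Results.MP_3faef8_co.DisjointUnion

variable {V W : Type}

open Classical in
/-- The sum `σ_ℓ(v)` of the labels of the edges at `v`. -/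
noncomputable def vertexSum [Fintype V] (G : SimpleGraph V) (ℓ : Sym2 V → ℕ) (v : V) : ℕ :=
  ∑ w : V, if G.Adj v w then ℓ s(v, w) else 0

/-- The number `nb(l, ℓ)` of edges of `G` with label `l`. -/
noncomputable def nb (G : SimpleGraph V) (ℓ : Sym2 V → ℕ) (l : ℕ) : ℕ :=
  {e | e ∈ G.edgeSet ∧ ℓ e = l}.ncard

/-- `ℓ` is an equitable proper `k`-labelling of `G` (only the values of `ℓ` on edges matter). -/
structure IsEquitableProper [Fintype V] (G : SimpleGraph V) (k : ℕ) (ℓ : Sym2 V → ℕ) : Prop where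
  /-- labels lie in `{1, …, k}` -/
  range : ∀ e ∈ G.edgeSet, 1 ≤ ℓ e ∧ ℓ e ≤ k
  /-- adjacent vertices have distinct sums -/
  proper : ∀ u v, G.Adj u v → vertexSum G ℓ u ≠ vertexSum G ℓ v
  /-- any two labels that are used are used equally often up to one -/
  equitable : ∀ l l', 0 < nb G ℓ l → 0 < nb G ℓ l' → nb G ℓ l ≤ nb G ℓ l' + 1

/-- The equitable version of `χ_Σ`: the least `k ≥ 1` such that `G` has an equitable proper
`k`-labelling. -/
noncomputable def chiEq [Fintype V] (G : SimpleGraph V) : ℕ :=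
  sInf {k | 1 ≤ k ∧ ∃ ℓ, IsEquitableProper G k ℓ}

/-- A graph is nice if none of its connected components is isomorphic to `K₂`. -/
def Nice (G : SimpleGraph V) : Prop :=
  ∀ c : G.ConnectedComponent, IsEmpty (G.induce c.supp ≃g (⊤ : SimpleGraph (Fin 2)))

/-- `copies a H` is the disjoint union of `a` copies of `H`. -/
abbrev copies (a : ℕ) (H : SimpleGraph V) : SimpleGraph (Fin a × V) :=
  (⊥ : SimpleGraph (Fin a)) □ H

/-- The disjoint union of `a` triangles, `b` copies of `K₄` and `c` six-cycles. -/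
abbrev unionGraph (a b c : ℕ) :
    SimpleGraph ((Fin a × Fin 3) ⊕ ((Fin b × Fin 4) ⊕ (Fin c × Fin 6))) :=
  copies a (cycleGraph 3) ⊕g (copies b (⊤ : SimpleGraph (Fin 4)) ⊕g copies c (cycleGraph 6))

/-! ### Ordered counts -/

open Classical in
/-- number of ordered pairs `(u,v)` of adjacent vertices whose edge has label `l` -/
noncomputable def oc [Fintype V] (G : SimpleGraph V) (ℓ : Sym2 V → ℕ) (l : ℕ) : ℕ :=
  ∑ u : V, ∑ v : V, if G.Adj u v ∧ ℓ s(u, v) = l then 1 else 0

theorem two_nb [Fintype V] (G : SimpleGraph V) (ℓ : Sym2 V → ℕ) (l : ℕ) :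
    2 * nb G ℓ l = oc G ℓ l := by
  classical
  let H : SimpleGraph V :=
    { Adj := fun u v => G.Adj u v ∧ ℓ s(u, v) = l
      symm := ⟨fun u v h => ⟨h.1.symm, by rw [Sym2.eq_swap]; exact h.2⟩⟩
      loopless := ⟨fun u h => G.irrefl h.1⟩ }
  have hset : {e | e ∈ G.edgeSet ∧ ℓ e = l} = H.edgeSet := by
    ext e
    induction e using Sym2.ind with
    | _ u v => simp [H]
  have h1 : nb G ℓ l = H.edgeFinset.card := by
    unfold nb
    rw [hset, ← coe_edgeFinset, Set.ncard_coe_finset]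
  rw [h1, ← H.sum_degrees_eq_twice_card_edges]
  unfold oc
  apply Finset.sum_congr rfl
  intro u _
  rw [← card_neighborFinset_eq_degree, Finset.card_eq_sum_ones, ← Finset.sum_filter]
  apply Finset.sum_congr _ (fun _ _ => rfl)
  ext v
  simp [H]

/-! ### Sums and counts in disjoint unions -/

theorem vertexSum_inl [Fintype V] [Fintype W] (G : SimpleGraph V) (H : SimpleGraph W)
    (ℓ : Sym2 (V ⊕ W) → ℕ) (v : V) :
    vertexSum (G ⊕g H) ℓ (Sum.inl v) = vertexSum G (fun e => ℓ (e.map Sum.inl)) v := by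
  classical
  unfold vertexSum
  rw [Fintype.sum_sum_type]
  have h0 : ∀ w ∈ (Finset.univ : Finset W),
      (if (G ⊕g H).Adj (Sum.inl v) (Sum.inr w) then ℓ s(Sum.inl v, Sum.inr w) else 0) = 0 :=
    fun w _ => if_neg (by simp)
  rw [Finset.sum_eq_zero h0, add_zero]
  exact Finset.sum_congr rfl fun w _ => if_congr sum_adj_inl rfl rfl

theorem vertexSum_inr [Fintype V] [Fintype W] (G : SimpleGraph V) (H : SimpleGraph W)
    (ℓ : Sym2 (V ⊕ W) → ℕ) (v : W) :
    vertexSum (G ⊕g H) ℓ (Sum.inr v) = vertexSum H (fun e => ℓ (e.map Sum.inr)) v := by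
  classical
  unfold vertexSum
  rw [Fintype.sum_sum_type]
  have h0 : ∀ w ∈ (Finset.univ : Finset V),
      (if (G ⊕g H).Adj (Sum.inr v) (Sum.inl w) then ℓ s(Sum.inr v, Sum.inl w) else 0) = 0 :=
    fun w _ => if_neg (by simp)
  rw [Finset.sum_eq_zero h0, zero_add]
  exact Finset.sum_congr rfl fun w _ => if_congr sum_adj_inr rfl rfl

theorem oc_sum [Fintype V] [Fintype W] (G : SimpleGraph V) (H : SimpleGraph W)
    (ℓ : Sym2 (V ⊕ W) → ℕ) (l : ℕ) :
    oc (G ⊕g H) ℓ l
      = oc G (fun e => ℓ (e.map Sum.inl)) l + oc H (fun e => ℓ (e.map Sum.inr)) l := by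
  classical
  unfold oc
  rw [Fintype.sum_sum_type]
  congr 1
  · apply Finset.sum_congr rfl
    intro u _
    rw [Fintype.sum_sum_type]
    have h0 : ∀ w ∈ (Finset.univ : Finset W),
        (if (G ⊕g H).Adj (Sum.inl u) (Sum.inr w) ∧ ℓ s(Sum.inl u, Sum.inr w) = l
          then 1 else 0) = 0 :=
      fun w _ => if_neg (by simp)
    rw [Finset.sum_eq_zero h0, add_zero]
    exact Finset.sum_congr rfl fun w _ => if_congr (and_congr sum_adj_inl Iff.rfl) rfl rfl
  · apply Finset.sum_congr rfl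
    intro u _
    rw [Fintype.sum_sum_type]
    have h0 : ∀ w ∈ (Finset.univ : Finset V),
        (if (G ⊕g H).Adj (Sum.inr u) (Sum.inl w) ∧ ℓ s(Sum.inr u, Sum.inl w) = l
          then 1 else 0) = 0 :=
      fun w _ => if_neg (by simp)
    rw [Finset.sum_eq_zero h0, zero_add]
    exact Finset.sum_congr rfl fun w _ => if_congr (and_congr sum_adj_inr Iff.rfl) rfl rfl

theorem vertexSum_copies [Fintype V] (a : ℕ) (H : SimpleGraph V)
    (ℓ : Sym2 (Fin a × V) → ℕ) (i : Fin a) (v : V) :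
    vertexSum (copies a H) ℓ (i, v) = vertexSum H (fun e => ℓ (e.map (Prod.mk i))) v := by
  classical
  unfold vertexSum
  rw [Fintype.sum_prod_type, Finset.sum_eq_single i]
  · simp
  · intro j _ hj
    apply Finset.sum_eq_zero
    intro w _
    simp [Ne.symm hj]
  · simp

theorem oc_copies [Fintype V] (a : ℕ) (H : SimpleGraph V)
    (ℓ : Sym2 (Fin a × V) → ℕ) (l : ℕ) :
    oc (copies a H) ℓ l = ∑ i : Fin a, oc H (fun e => ℓ (e.map (Prod.mk i))) l := by
  classical
  unfold oc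
  rw [Fintype.sum_prod_type]
  apply Finset.sum_congr rfl
  intro i _
  apply Finset.sum_congr rfl
  intro u _
  rw [Fintype.sum_prod_type, Finset.sum_eq_single i]
  · exact Finset.sum_congr rfl fun w _ => if_congr (and_congr boxProd_adj_right Iff.rfl) rfl rfl
  · intro j _ hj
    apply Finset.sum_eq_zero
    intro w _
    simp [Ne.symm hj]
  · simp

/-- properness and label range only -/
structure IsProper [Fintype V] (G : SimpleGraph V) (k : ℕ) (ℓ : Sym2 V → ℕ) : Prop where
  range : ∀ e ∈ G.edgeSet, 1 ≤ ℓ e ∧ ℓ e ≤ k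
  proper : ∀ u v, G.Adj u v → vertexSum G ℓ u ≠ vertexSum G ℓ v

theorem IsProper.left [Fintype V] [Fintype W] {G : SimpleGraph V} {H : SimpleGraph W} {k : ℕ}
    {ℓ : Sym2 (V ⊕ W) → ℕ} (h : IsProper (G ⊕g H) k ℓ) :
    IsProper G k (fun e => ℓ (e.map Sum.inl)) := by
  refine ⟨?_, ?_⟩
  · intro e he
    apply h.range
    induction e using Sym2.ind with
    | _ u v => simpa using he
  · intro u v huv
    rw [← vertexSum_inl G H, ← vertexSum_inl G H]
    exact h.proper _ _ (by simpa using huv)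

theorem IsProper.right [Fintype V] [Fintype W] {G : SimpleGraph V} {H : SimpleGraph W} {k : ℕ}
    {ℓ : Sym2 (V ⊕ W) → ℕ} (h : IsProper (G ⊕g H) k ℓ) :
    IsProper H k (fun e => ℓ (e.map Sum.inr)) := by
  refine ⟨?_, ?_⟩
  · intro e he
    apply h.range
    induction e using Sym2.ind with
    | _ u v => simpa using he
  · intro u v huv
    rw [← vertexSum_inr G H, ← vertexSum_inr G H]
    exact h.proper _ _ (by simpa using huv)

theorem IsProper.copy [Fintype V] {a : ℕ} {H : SimpleGraph V} {k : ℕ}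
    {ℓ : Sym2 (Fin a × V) → ℕ} (h : IsProper (copies a H) k ℓ) (i : Fin a) :
    IsProper H k (fun e => ℓ (e.map (Prod.mk i))) := by
  refine ⟨?_, ?_⟩
  · intro e he
    apply h.range
    induction e using Sym2.ind with
    | _ u v => simpa using he
  · intro u v huv
    rw [← vertexSum_copies a H, ← vertexSum_copies a H]
    exact h.proper _ _ (by simpa using huv)

/-! ### The small graphs -/

theorem three_values {x y z : ℕ} (hx : 1 ≤ x ∧ x ≤ 3) (hy : 1 ≤ y ∧ y ≤ 3) (hz : 1 ≤ z ∧ z ≤ 3)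
    (hxy : x ≠ y) (hyz : y ≠ z) (hxz : x ≠ z) {l : ℕ} (hl : 1 ≤ l ∧ l ≤ 3) :
    (if x = l then 1 else 0) + (if y = l then 1 else 0) + (if z = l then 1 else 0) = 1 := by
  split_ifs <;> omega

theorem cycle3_count {ℓ : Sym2 (Fin 3) → ℕ} (h : IsProper (cycleGraph 3) 3 ℓ) {l : ℕ}
    (hl : 1 ≤ l ∧ l ≤ 3) : oc (cycleGraph 3) ℓ l = 2 := by
  have a01 : (cycleGraph 3).Adj 0 1 := by decide
  have a12 : (cycleGraph 3).Adj 1 2 := by decide
  have a02 : (cycleGraph 3).Adj 0 2 := by decide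
  have r01 := h.range s(0, 1) a01
  have r12 := h.range s(1, 2) a12
  have r02 := h.range s(0, 2) a02
  have p01 := h.proper 0 1 a01
  have p12 := h.proper 1 2 a12
  have p02 := h.proper 0 2 a02
  have e10 : (s(1, 0) : Sym2 (Fin 3)) = s(0, 1) := Sym2.eq_swap
  have e21 : (s(2, 1) : Sym2 (Fin 3)) = s(1, 2) := Sym2.eq_swap
  have e20 : (s(2, 0) : Sym2 (Fin 3)) = s(0, 2) := Sym2.eq_swap
  have a10 := a01.symm
  have a21 := a12.symm
  have a20 := a02.symm
  simp only [vertexSum, Fin.sum_univ_three, a01, a12, a02, a10, a21, a20, SimpleGraph.irrefl,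
    if_true, if_false, e10, e21, e20] at p01 p12 p02
  simp only [oc, Fin.sum_univ_three, a01, a12, a02, a10, a21, a20, SimpleGraph.irrefl,
    if_false, e10, e21, e20, true_and, false_and]
  have := three_values r01 r12 r02 (by omega) (by omega) (by omega) hl
  omega

theorem adj6 (i j : Fin 6) : (cycleGraph 6).Adj i j ↔ (j = i + 1 ∨ i = j + 1) := by
  revert i j
  decide

theorem cycle6_count {ℓ : Sym2 (Fin 6) → ℕ} (h : IsProper (cycleGraph 6) 3 ℓ) {l : ℕ}
    (hl : 1 ≤ l ∧ l ≤ 3) : oc (cycleGraph 6) ℓ l = 4 := by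
  have a01 : (cycleGraph 6).Adj 0 1 := by decide
  have a12 : (cycleGraph 6).Adj 1 2 := by decide
  have a23 : (cycleGraph 6).Adj 2 3 := by decide
  have a34 : (cycleGraph 6).Adj 3 4 := by decide
  have a45 : (cycleGraph 6).Adj 4 5 := by decide
  have a50 : (cycleGraph 6).Adj 5 0 := by decide
  have r01 := h.range s(0, 1) a01
  have r12 := h.range s(1, 2) a12
  have r23 := h.range s(2, 3) a23
  have r34 := h.range s(3, 4) a34
  have r45 := h.range s(4, 5) a45
  have r50 := h.range s(5, 0) a50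
  have p01 := h.proper 0 1 a01
  have p12 := h.proper 1 2 a12
  have p23 := h.proper 2 3 a23
  have p34 := h.proper 3 4 a34
  have p45 := h.proper 4 5 a45
  have p50 := h.proper 5 0 a50
  have e10 : (s(1, 0) : Sym2 (Fin 6)) = s(0, 1) := Sym2.eq_swap
  have e21 : (s(2, 1) : Sym2 (Fin 6)) = s(1, 2) := Sym2.eq_swap
  have e32 : (s(3, 2) : Sym2 (Fin 6)) = s(2, 3) := Sym2.eq_swap
  have e43 : (s(4, 3) : Sym2 (Fin 6)) = s(3, 4) := Sym2.eq_swap
  have e54 : (s(5, 4) : Sym2 (Fin 6)) = s(4, 5) := Sym2.eq_swap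
  have e05 : (s(0, 5) : Sym2 (Fin 6)) = s(5, 0) := Sym2.eq_swap
  simp [vertexSum, Fin.sum_univ_six, adj6, e10, e21, e32, e43, e54, e05] at p01 p12 p23 p34 p45 p50
  have h1 := three_values r01 r23 r45 (by omega) (by omega) (by omega) hl
  have h2 := three_values r12 r34 r50 (by omega) (by omega) (by omega) hl
  have hoc : oc (cycleGraph 6) ℓ l =
      2 * ((if ℓ s(0, 1) = l then 1 else 0) + (if ℓ s(2, 3) = l then 1 else 0)
        + (if ℓ s(4, 5) = l then 1 else 0))
      + 2 * ((if ℓ s(1, 2) = l then 1 else 0) + (if ℓ s(3, 4) = l then 1 else 0)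
        + (if ℓ s(5, 0) = l then 1 else 0)) := by
    simp only [oc, Fin.sum_univ_six, adj6]
    simp [e10, e21, e32, e43, e54, e05]
    ring
  rw [hoc, h1, h2]

/-- auxiliary finite check for `K₄`, labels shifted to `{0,1,2}` -/
def k4Sums (a b c d e f : Fin 3) : Prop :=
  (a.val + b.val + c.val ≠ a.val + d.val + e.val) ∧
  (a.val + b.val + c.val ≠ b.val + d.val + f.val) ∧
  (a.val + b.val + c.val ≠ c.val + e.val + f.val) ∧
  (a.val + d.val + e.val ≠ b.val + d.val + f.val) ∧
  (a.val + d.val + e.val ≠ c.val + e.val + f.val) ∧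
  (b.val + d.val + f.val ≠ c.val + e.val + f.val)

instance (a b c d e f : Fin 3) : Decidable (k4Sums a b c d e f) := by
  unfold k4Sums; infer_instance

/-- auxiliary: number of labels equal to `l` among six -/
def cnt6 (a b c d e f l : Fin 3) : ℕ :=
  (if a = l then 1 else 0) + (if b = l then 1 else 0) + (if c = l then 1 else 0) +
      (if d = l then 1 else 0) + (if e = l then 1 else 0) + (if f = l then 1 else 0)

theorem k4_aux : ∀ a b c d e f : Fin 3, k4Sums a b c d e f →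
    cnt6 a b c d e f 1 % 2 = 1 ∧ 1 ≤ cnt6 a b c d e f 2 ∧ 1 ≤ cnt6 a b c d e f 0 ∧
      cnt6 a b c d e f 0 + cnt6 a b c d e f 1 + cnt6 a b c d e f 2 = 6 := by
  decide +kernel

theorem k4_count {ℓ : Sym2 (Fin 4) → ℕ} (h : IsProper (⊤ : SimpleGraph (Fin 4)) 3 ℓ) :
    (∃ j, oc (⊤ : SimpleGraph (Fin 4)) ℓ 2 = 4 * j + 2) ∧
      2 ≤ oc (⊤ : SimpleGraph (Fin 4)) ℓ 3 ∧ 2 ≤ oc (⊤ : SimpleGraph (Fin 4)) ℓ 1 ∧
      oc (⊤ : SimpleGraph (Fin 4)) ℓ 1 + oc (⊤ : SimpleGraph (Fin 4)) ℓ 2
        + oc (⊤ : SimpleGraph (Fin 4)) ℓ 3 = 12 := by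
  have r01 := h.range s(0, 1) (by simp)
  have r02 := h.range s(0, 2) (by simp)
  have r03 := h.range s(0, 3) (by simp)
  have r12 := h.range s(1, 2) (by simp)
  have r13 := h.range s(1, 3) (by simp)
  have r23 := h.range s(2, 3) (by simp)
  have p01 := h.proper 0 1 (by simp)
  have p02 := h.proper 0 2 (by simp)
  have p03 := h.proper 0 3 (by simp)
  have p12 := h.proper 1 2 (by simp)
  have p13 := h.proper 1 3 (by simp)
  have p23 := h.proper 2 3 (by simp)
  have e10 : (s(1, 0) : Sym2 (Fin 4)) = s(0, 1) := Sym2.eq_swap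
  have e20 : (s(2, 0) : Sym2 (Fin 4)) = s(0, 2) := Sym2.eq_swap
  have e30 : (s(3, 0) : Sym2 (Fin 4)) = s(0, 3) := Sym2.eq_swap
  have e21 : (s(2, 1) : Sym2 (Fin 4)) = s(1, 2) := Sym2.eq_swap
  have e31 : (s(3, 1) : Sym2 (Fin 4)) = s(1, 3) := Sym2.eq_swap
  have e32 : (s(3, 2) : Sym2 (Fin 4)) = s(2, 3) := Sym2.eq_swap
  simp [vertexSum, Fin.sum_univ_four, e10, e20, e30, e21, e31, e32] at p01 p02 p03 p12 p13 p23
  have hoc : ∀ l, oc (⊤ : SimpleGraph (Fin 4)) ℓ l =
      2 * ((if ℓ s(0, 1) = l then 1 else 0) + (if ℓ s(0, 2) = l then 1 else 0)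
        + (if ℓ s(0, 3) = l then 1 else 0) + (if ℓ s(1, 2) = l then 1 else 0)
        + (if ℓ s(1, 3) = l then 1 else 0) + (if ℓ s(2, 3) = l then 1 else 0)) := by
    intro l
    simp only [oc, Fin.sum_univ_four, top_adj]
    simp [e10, e20, e30, e21, e31, e32]
    ring
  obtain ⟨hl1, hl2, hl0, hl3⟩ := k4_aux ⟨ℓ s(0, 1) - 1, by omega⟩ ⟨ℓ s(0, 2) - 1, by omega⟩
    ⟨ℓ s(0, 3) - 1, by omega⟩ ⟨ℓ s(1, 2) - 1, by omega⟩ ⟨ℓ s(1, 3) - 1, by omega⟩
    ⟨ℓ s(2, 3) - 1, by omega⟩ (by
      refine ⟨?_, ?_, ?_, ?_, ?_, ?_⟩ <;> simp only <;> omega)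
  have cv : ∀ x : ℕ, (hx : 1 ≤ x ∧ x ≤ 3) → ∀ l : Fin 3,
      ((⟨x - 1, by omega⟩ : Fin 3) = l ↔ x = l.val + 1) := by
    intro x hx l
    rw [Fin.ext_iff]
    simp only
    omega
  simp only [cnt6, cv _ r01, cv _ r02, cv _ r03, cv _ r12, cv _ r13, cv _ r23] at hl1 hl2 hl0 hl3
  have v0 : ((0 : Fin 3) : ℕ) + 1 = 1 := rfl
  have v1 : ((1 : Fin 3) : ℕ) + 1 = 2 := rfl
  have v2 : ((2 : Fin 3) : ℕ) + 1 = 3 := rfl
  rw [v1] at hl1
  rw [v2] at hl2
  rw [v0] at hl0
  rw [v0, v1, v2] at hl3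
  have h1 := hoc 1
  have h2 := hoc 2
  have h3 := hoc 3
  refine ⟨⟨oc (⊤ : SimpleGraph (Fin 4)) ℓ 2 / 4, ?_⟩, ?_, ?_, ?_⟩ <;> omega

/-! ### Proper `3`-labellings of the disjoint union -/

theorem oc_union (a b c : ℕ)
    (ℓ : Sym2 ((Fin a × Fin 3) ⊕ ((Fin b × Fin 4) ⊕ (Fin c × Fin 6))) → ℕ)
    (l : ℕ) : oc (unionGraph a b c) ℓ l =
      (∑ i : Fin a, oc (cycleGraph 3)
        (fun e => ℓ ((e.map (Prod.mk i)).map Sum.inl)) l)
      + ((∑ i : Fin b, oc (⊤ : SimpleGraph (Fin 4))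
        (fun e => ℓ (((e.map (Prod.mk i)).map Sum.inl).map Sum.inr)) l)
      + ∑ i : Fin c, oc (cycleGraph 6)
        (fun e => ℓ (((e.map (Prod.mk i)).map Sum.inr).map Sum.inr)) l) := by
  rw [oc_sum, oc_sum, oc_copies, oc_copies, oc_copies]

/-- The count of a label in a proper `3`-labelling, in terms of the `K₄` components. -/
theorem oc_proper {a b c : ℕ}
    {ℓ : Sym2 ((Fin a × Fin 3) ⊕ ((Fin b × Fin 4) ⊕ (Fin c × Fin 6))) → ℕ}
    (hp : IsProper (unionGraph a b c) 3 ℓ) {l : ℕ} (hl : 1 ≤ l ∧ l ≤ 3) :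
    2 * nb (unionGraph a b c) ℓ l = 2 * a + 4 * c + ∑ i : Fin b, oc (⊤ : SimpleGraph (Fin 4))
        (fun e => ℓ (((e.map (Prod.mk i)).map Sum.inl).map Sum.inr)) l := by
  rw [two_nb, oc_union, Finset.sum_congr rfl (fun i _ => cycle3_count (hp.left.copy i) hl),
    Finset.sum_congr (g := fun _ => 4) rfl
      (fun i _ => cycle6_count (hp.right.right.copy i) hl)]
  simp only [Finset.sum_const, Finset.card_univ, Fintype.card_fin, smul_eq_mul]
  ring

/-- A proper `3`-labelling uses the label `3`. -/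
theorem uses_three {a b c : ℕ} (habc : 1 ≤ a + b + c)
    {ℓ : Sym2 ((Fin a × Fin 3) ⊕ ((Fin b × Fin 4) ⊕ (Fin c × Fin 6))) → ℕ}
    (hp : IsProper (unionGraph a b c) 3 ℓ) : 0 < nb (unionGraph a b c) ℓ 3 := by
  have h := oc_proper hp (l := 3) ⟨by norm_num, le_rfl⟩
  have h2 : ∑ i : Fin b, 2 ≤ ∑ i : Fin b, oc (⊤ : SimpleGraph (Fin 4))
        (fun e => ℓ (((e.map (Prod.mk i)).map Sum.inl).map Sum.inr)) 3 :=
    Finset.sum_le_sum fun i _ => (k4_count (hp.right.left.copy i)).2.1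
  simp only [Finset.sum_const, Finset.card_univ, Fintype.card_fin, smul_eq_mul] at h2
  omega

theorem not_two {a b c : ℕ} (habc : 1 ≤ a + b + c) {k : ℕ} (hk : k ≤ 2) :
    ¬ ∃ ℓ, IsEquitableProper (unionGraph a b c) k ℓ := by
  rintro ⟨ℓ, h⟩
  have hp : IsProper (unionGraph a b c) 3 ℓ :=
    ⟨fun e he => ⟨(h.range e he).1, (h.range e he).2.trans (by omega)⟩, h.proper⟩
  have h3 := uses_three habc hp
  obtain ⟨e, he, hl⟩ := Set.nonempty_of_ncard_ne_zero h3.ne'
  have := (h.range e he).2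
  omega

theorem sum_odd : ∀ (b : ℕ) (g : Fin b → ℕ), (∀ i, ∃ j, g i = 4 * j + 2) →
    ∃ j, ∑ i : Fin b, g i = 4 * j + 2 * b := by
  intro b
  induction b with
  | zero => intro g _; exact ⟨0, by simp⟩
  | succ b ih =>
    intro g hg
    obtain ⟨j, hj⟩ := ih (fun i => g i.castSucc) (fun i => hg _)
    obtain ⟨j', hj'⟩ := hg (Fin.last b)
    refine ⟨j + j', ?_⟩
    rw [Fin.sum_univ_castSucc, hj, hj']
    ring

theorem not_three {a b c : ℕ} (hb : Odd b) {k : ℕ} (hk : k ≤ 3) :
    ¬ ∃ ℓ, IsEquitableProper (unionGraph a b c) k ℓ := by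
  rintro ⟨ℓ, h⟩
  have hp : IsProper (unionGraph a b c) 3 ℓ :=
    ⟨fun e he => ⟨(h.range e he).1, (h.range e he).2.trans hk⟩, h.proper⟩
  have hbpos : 1 ≤ b := hb.pos
  set g : ℕ → Fin b → ℕ := fun l i => oc (⊤ : SimpleGraph (Fin 4))
        (fun e => ℓ (((e.map (Prod.mk i)).map Sum.inl).map Sum.inr)) l with hg
  have h1 : 2 * nb (unionGraph a b c) ℓ 1 = 2 * a + 4 * c + ∑ i : Fin b, g 1 i :=
    oc_proper hp ⟨le_rfl, by norm_num⟩
  have h2 : 2 * nb (unionGraph a b c) ℓ 2 = 2 * a + 4 * c + ∑ i : Fin b, g 2 i :=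
    oc_proper hp ⟨by norm_num, by norm_num⟩
  have h3 : 2 * nb (unionGraph a b c) ℓ 3 = 2 * a + 4 * c + ∑ i : Fin b, g 3 i :=
    oc_proper hp ⟨by norm_num, le_rfl⟩
  have hcount : ∀ i : Fin b, (∃ j, g 2 i = 4 * j + 2) ∧ 2 ≤ g 3 i ∧ 2 ≤ g 1 i ∧
      g 1 i + g 2 i + g 3 i = 12 :=
    fun i => k4_count (hp.right.left.copy i)
  obtain ⟨j, hj⟩ := sum_odd b (g 2) (fun i => (hcount i).1)
  have htot : ∑ i : Fin b, g 1 i + ∑ i : Fin b, g 2 i + ∑ i : Fin b, g 3 i = 12 * b := by
    rw [← Finset.sum_add_distrib, ← Finset.sum_add_distrib,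
      Finset.sum_congr rfl (fun i _ => (hcount i).2.2.2)]
    simp [mul_comm]
  have u3 : 0 < nb (unionGraph a b c) ℓ 3 := uses_three (by omega) hp
  have u2 : 0 < nb (unionGraph a b c) ℓ 2 := by omega
  have e1 := h.equitable 3 2 u3 u2
  have e2 := h.equitable 2 3 u2 u3
  have h11 : ∑ i : Fin b, 2 ≤ ∑ i : Fin b, g 1 i :=
    Finset.sum_le_sum fun i _ => (hcount i).2.2.1
  simp only [Finset.sum_const, Finset.card_univ, Fintype.card_fin, smul_eq_mul] at h11
  have u1 : 0 < nb (unionGraph a b c) ℓ 1 := by omega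
  have e3 := h.equitable 1 2 u1 u2
  have e4 := h.equitable 2 1 u2 u1
  have e5 := h.equitable 1 3 u1 u3
  have e6 := h.equitable 3 1 u3 u1
  obtain ⟨m, hm⟩ := hb
  omega

/-! ### Labellings -/


theorem IsProper.sum [Fintype V] [Fintype W] {G : SimpleGraph V} {H : SimpleGraph W} {k : ℕ}
    {ℓ : Sym2 (V ⊕ W) → ℕ} (h1 : IsProper G k (fun e => ℓ (e.map Sum.inl)))
    (h2 : IsProper H k (fun e => ℓ (e.map Sum.inr))) : IsProper (G ⊕g H) k ℓ := by
  refine ⟨?_, ?_⟩
  · intro e he
    induction e using Sym2.ind with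
    | _ u v =>
      rcases u with u | u <;> rcases v with v | v
      · exact h1.range s(u, v) (by simpa using he)
      · simp at he
      · simp at he
      · exact h2.range s(u, v) (by simpa using he)
  · intro u v huv
    rcases u with u | u <;> rcases v with v | v
    · rw [vertexSum_inl, vertexSum_inl]
      exact h1.proper u v (by simpa using huv)
    · simp at huv
    · simp at huv
    · rw [vertexSum_inr, vertexSum_inr]
      exact h2.proper u v (by simpa using huv)

theorem IsProper.copies [Fintype V] {a : ℕ} {H : SimpleGraph V} {k : ℕ}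
    {ℓ : Sym2 (Fin a × V) → ℕ} (h : ∀ i : Fin a, IsProper H k (fun e => ℓ (e.map (Prod.mk i)))) :
    IsProper (copies a H) k ℓ := by
  refine ⟨?_, ?_⟩
  · intro e he
    induction e using Sym2.ind with
    | _ u v =>
      obtain ⟨i, u⟩ := u
      obtain ⟨j, v⟩ := v
      simp only [mem_edgeSet, boxProd_adj, bot_adj, false_and, false_or] at he
      obtain ⟨he, rfl⟩ := he
      exact (h i).range s(u, v) (by simpa using he)
  · rintro ⟨i, u⟩ ⟨j, v⟩ huv
    simp only [boxProd_adj, bot_adj, false_and, false_or] at huv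
    obtain ⟨he, rfl⟩ := huv
    rw [vertexSum_copies, vertexSum_copies]
    exact (h i).proper u v he

/-- labels `x, y, z` on the triangle -/
def T3 (x y z : ℕ) : Sym2 (Fin 3) → ℕ :=
  Sym2.lift ⟨fun u v => (![![0, x, y], ![x, 0, z], ![y, z, 0]] : Fin 3 → Fin 3 → ℕ) u v, by
    intro u v
    fin_cases u <;> fin_cases v <;> rfl⟩

/-- labels `x, x, y, y, z, z` around the six-cycle -/
def T6 (x y z : ℕ) : Sym2 (Fin 6) → ℕ :=
  Sym2.lift ⟨fun u v => (![![0, x, 0, 0, 0, z], ![x, 0, x, 0, 0, 0], ![0, x, 0, y, 0, 0],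
    ![0, 0, y, 0, y, 0], ![0, 0, 0, y, 0, z], ![z, 0, 0, 0, z, 0]] : Fin 6 → Fin 6 → ℕ) u v, by
    intro u v
    fin_cases u <;> fin_cases v <;> rfl⟩

/-- labels of `K₄`, each of `1,2,4` twice -/
def T4 : Sym2 (Fin 4) → ℕ :=
  Sym2.lift ⟨fun u v => (![![0, 2, 4, 1], ![2, 0, 2, 1], ![4, 2, 0, 4], ![1, 1, 4, 0]] :
    Fin 4 → Fin 4 → ℕ) u v, by decide⟩

/-- labels of `K₄`, with `1` once, `2` three times, `3` twice -/
def T4a : Sym2 (Fin 4) → ℕ :=
  Sym2.lift ⟨fun u v => (![![0, 1, 2, 2], ![1, 0, 2, 3], ![2, 2, 0, 3], ![2, 3, 3, 0]] :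
    Fin 4 → Fin 4 → ℕ) u v, by decide⟩

/-- labels of `K₄`, with `1` three times, `2` once, `3` twice -/
def T4b : Sym2 (Fin 4) → ℕ :=
  Sym2.lift ⟨fun u v => (![![0, 1, 1, 2], ![1, 0, 3, 1], ![1, 3, 0, 3], ![2, 1, 3, 0]] :
    Fin 4 → Fin 4 → ℕ) u v, by decide⟩

theorem adj3 (i j : Fin 3) : (cycleGraph 3).Adj i j ↔ i ≠ j := by
  revert i j
  decide

theorem T3_proper {x y z k : ℕ} (hx : 1 ≤ x ∧ x ≤ k) (hy : 1 ≤ y ∧ y ≤ k) (hz : 1 ≤ z ∧ z ≤ k)
    (hxy : x ≠ y) (hyz : y ≠ z) (hxz : x ≠ z) : IsProper (cycleGraph 3) k (T3 x y z) := by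
  refine ⟨?_, ?_⟩
  · intro e
    induction e using Sym2.ind with
    | _ u v =>
      rw [mem_edgeSet, adj3]
      fin_cases u <;> fin_cases v <;> simp [T3, hx, hy, hz]
  · intro u v
    rw [adj3]
    fin_cases u <;> fin_cases v <;>
      simp [vertexSum, Fin.sum_univ_three, adj3, T3] <;> omega

theorem T6_proper {x y z k : ℕ} (hx : 1 ≤ x ∧ x ≤ k) (hy : 1 ≤ y ∧ y ≤ k) (hz : 1 ≤ z ∧ z ≤ k)
    (hxy : x ≠ y) (hyz : y ≠ z) (hxz : x ≠ z) : IsProper (cycleGraph 6) k (T6 x y z) := by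
  refine ⟨?_, ?_⟩
  · intro e
    induction e using Sym2.ind with
    | _ u v =>
      rw [mem_edgeSet, adj6]
      fin_cases u <;> fin_cases v <;> simp [T6, hx, hy, hz]
  · intro u v
    rw [adj6]
    fin_cases u <;> fin_cases v <;>
      simp [vertexSum, Fin.sum_univ_six, adj6, T6] <;> omega

theorem T4_proper : IsProper (⊤ : SimpleGraph (Fin 4)) 4 T4 := by
  refine ⟨?_, ?_⟩
  · intro e
    induction e using Sym2.ind with
    | _ u v =>
      rw [mem_edgeSet, top_adj]
      revert u v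
      decide
  · intro u v
    rw [top_adj]
    fin_cases u <;> fin_cases v <;>
      simp [vertexSum, Fin.sum_univ_four, T4]

theorem T4a_proper : IsProper (⊤ : SimpleGraph (Fin 4)) 3 T4a := by
  refine ⟨?_, ?_⟩
  · intro e
    induction e using Sym2.ind with
    | _ u v =>
      rw [mem_edgeSet, top_adj]
      revert u v
      decide
  · intro u v
    rw [top_adj]
    fin_cases u <;> fin_cases v <;>
      simp [vertexSum, Fin.sum_univ_four, T4a]

theorem T4b_proper : IsProper (⊤ : SimpleGraph (Fin 4)) 3 T4b := by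
  refine ⟨?_, ?_⟩
  · intro e
    induction e using Sym2.ind with
    | _ u v =>
      rw [mem_edgeSet, top_adj]
      revert u v
      decide
  · intro u v
    rw [top_adj]
    fin_cases u <;> fin_cases v <;>
      simp [vertexSum, Fin.sum_univ_four, T4b]

theorem T3_oc (x y z l : ℕ) : oc (cycleGraph 3) (T3 x y z) l =
    2 * ((if x = l then 1 else 0) + (if y = l then 1 else 0) + (if z = l then 1 else 0)) := by
  simp only [oc, Fin.sum_univ_three, adj3]
  simp [T3]
  ring

theorem T6_oc (x y z l : ℕ) : oc (cycleGraph 6) (T6 x y z) l =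
    4 * ((if x = l then 1 else 0) + (if y = l then 1 else 0) + (if z = l then 1 else 0)) := by
  simp only [oc, Fin.sum_univ_six, adj6]
  simp [T6]
  ring

theorem T4_oc (l : ℕ) : oc (⊤ : SimpleGraph (Fin 4)) T4 l =
    4 * ((if 1 = l then 1 else 0) + (if 2 = l then 1 else 0) + (if 4 = l then 1 else 0)) := by
  simp only [oc, Fin.sum_univ_four, top_adj]
  simp [T4]
  ring

theorem T4a_oc (l : ℕ) : oc (⊤ : SimpleGraph (Fin 4)) T4a l =
    2 * (if 1 = l then 1 else 0) + 6 * (if 2 = l then 1 else 0) + 4 * (if 3 = l then 1 else 0) := by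
  simp only [oc, Fin.sum_univ_four, top_adj]
  simp [T4a]
  split_ifs <;> omega

theorem T4b_oc (l : ℕ) : oc (⊤ : SimpleGraph (Fin 4)) T4b l =
    6 * (if 1 = l then 1 else 0) + 2 * (if 2 = l then 1 else 0) + 4 * (if 3 = l then 1 else 0) := by
  simp only [oc, Fin.sum_univ_four, top_adj]
  simp [T4b]
  split_ifs <;> omega

/-- the labelling of the whole graph, given labellings of the components -/
def lab (a b c : ℕ) (t3 : Sym2 (Fin 3) → ℕ) (t6 : Sym2 (Fin 6) → ℕ)
    (t4 : Fin b → Sym2 (Fin 4) → ℕ) :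
    Sym2 ((Fin a × Fin 3) ⊕ ((Fin b × Fin 4) ⊕ (Fin c × Fin 6))) → ℕ :=
  Sym2.lift ⟨fun x y => match x, y with
    | Sum.inl p, Sum.inl q => t3 s(p.2, q.2)
    | Sum.inr (Sum.inl p), Sum.inr (Sum.inl q) => if p.1 = q.1 then t4 p.1 s(p.2, q.2) else 0
    | Sum.inr (Sum.inr p), Sum.inr (Sum.inr q) => t6 s(p.2, q.2)
    | _, _ => 0, by
      intro x y
      rcases x with x | x | x <;> rcases y with y | y | y <;>
        simp only [Sym2.eq_swap]
      by_cases h : x.1 = y.1
      · rw [if_pos h, if_pos h.symm, h]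
      · rw [if_neg h, if_neg (Ne.symm h)]⟩

variable {a b c : ℕ} {t3 : Sym2 (Fin 3) → ℕ} {t6 : Sym2 (Fin 6) → ℕ}
  {t4 : Fin b → Sym2 (Fin 4) → ℕ}

theorem lab3 (i : Fin a) :
    (fun e : Sym2 (Fin 3) => lab a b c t3 t6 t4 ((e.map (Prod.mk i)).map Sum.inl)) = t3 := by
  funext e
  induction e using Sym2.ind with
  | _ u v => rfl

theorem lab6 (i : Fin c) :
    (fun e : Sym2 (Fin 6) => lab a b c t3 t6 t4
      (((e.map (Prod.mk i)).map Sum.inr).map Sum.inr)) = t6 := by
  funext e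
  induction e using Sym2.ind with
  | _ u v => rfl

theorem lab4 (i : Fin b) :
    (fun e : Sym2 (Fin 4) => lab a b c t3 t6 t4
      (((e.map (Prod.mk i)).map Sum.inl).map Sum.inr)) = t4 i := by
  funext e
  induction e using Sym2.ind with
  | _ u v => simp [lab]

theorem lab_proper {k : ℕ} (h3 : IsProper (cycleGraph 3) k t3) (h6 : IsProper (cycleGraph 6) k t6)
    (h4 : ∀ i, IsProper (⊤ : SimpleGraph (Fin 4)) k (t4 i)) :
    IsProper (unionGraph a b c) k (lab a b c t3 t6 t4) := by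
  apply IsProper.sum
  · apply IsProper.copies
    intro i
    rw [lab3 i]
    exact h3
  · apply IsProper.sum
    · apply IsProper.copies
      intro i
      rw [lab4 i]
      exact h4 i
    · apply IsProper.copies
      intro i
      rw [lab6 i]
      exact h6

theorem lab_count (l : ℕ) : 2 * nb (unionGraph a b c) (lab a b c t3 t6 t4) l =
    a * oc (cycleGraph 3) t3 l + ((∑ i : Fin b, oc (⊤ : SimpleGraph (Fin 4)) (t4 i) l)
      + c * oc (cycleGraph 6) t6 l) := by
  rw [two_nb, oc_union]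
  simp only [lab3, lab6, lab4]
  simp only [Finset.sum_const, Finset.card_univ, Fintype.card_fin, smul_eq_mul]

/-- A proper labelling in which each of three labels is used exactly `N` times and no other label is
used is equitable. -/
theorem equitable_of [Fintype V] {G : SimpleGraph V} {k : ℕ} {ℓ : Sym2 V → ℕ}
    (hp : IsProper G k ℓ) {x y z N : ℕ} (hxy : x ≠ y) (hyz : y ≠ z) (hxz : x ≠ z)
    (h : ∀ l, 2 * nb G ℓ l
      = 2 * N * ((if x = l then 1 else 0) + (if y = l then 1 else 0) + (if z = l then 1 else 0))) :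
    IsEquitableProper G k ℓ := by
  refine ⟨hp.range, hp.proper, ?_⟩
  intro l l' hl hl'
  have h1 := h l
  have h2 := h l'
  have c1 : ∀ l : ℕ, ((if x = l then 1 else 0) + (if y = l then 1 else 0)
      + (if z = l then 1 else 0) = 0) ∨ ((if x = l then 1 else 0) + (if y = l then 1 else 0)
      + (if z = l then 1 else 0) = 1) := by
    intro l
    split_ifs <;> omega
  rcases c1 l with e1 | e1 <;> rcases c1 l' with e2 | e2 <;> rw [e1] at h1 <;> rw [e2] at h2 <;>
    omega

/-- Every union has an equitable proper `4`-labelling (using the labels `1,2,4`). -/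
theorem four (a b c : ℕ) : ∃ ℓ, IsEquitableProper (unionGraph a b c) 4 ℓ := by
  refine ⟨lab a b c (T3 1 2 4) (T6 1 2 4) (fun _ => T4), ?_⟩
  apply equitable_of (x := 1) (y := 2) (z := 4) (N := a + 2 * b + 2 * c)
  · exact lab_proper (T3_proper (by norm_num) (by norm_num) (by norm_num) (by norm_num)
      (by norm_num) (by norm_num)) (T6_proper (by norm_num) (by norm_num) (by norm_num)
      (by norm_num) (by norm_num) (by norm_num)) (fun _ => T4_proper)
  · norm_num
  · norm_num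
  · norm_num
  · intro l
    rw [lab_count]
    simp only [T3_oc, T6_oc, T4_oc, Finset.sum_const, Finset.card_univ, Fintype.card_fin,
      smul_eq_mul]
    ring

theorem sum_alt (x y : ℕ) : ∀ m : ℕ, ∑ i : Fin (2 * m), (if i.val % 2 = 0 then x else y)
    = m * (x + y) := by
  intro m
  rw [Fin.sum_univ_eq_sum_range (fun i => if i % 2 = 0 then x else y) (2 * m)]
  induction m with
  | zero => simp
  | succ m ih =>
    rw [show 2 * (m + 1) = 2 * m + 1 + 1 by ring, Finset.sum_range_succ, Finset.sum_range_succ, ih]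
    have h1 : 2 * m % 2 = 0 := by omega
    have h2 : (2 * m + 1) % 2 = 1 := by omega
    simp [h1, h2]
    ring

/-- If the number of `K₄`'s is even then there is an equitable proper `3`-labelling. -/
theorem three (a m c : ℕ) : ∃ ℓ, IsEquitableProper (unionGraph a (2 * m) c) 3 ℓ := by
  refine ⟨lab a (2 * m) c (T3 1 2 3) (T6 1 2 3)
    (fun i => if i.val % 2 = 0 then T4a else T4b), ?_⟩
  apply equitable_of (x := 1) (y := 2) (z := 3) (N := a + 4 * m + 2 * c)
  · exact lab_proper (T3_proper (by norm_num) (by norm_num) (by norm_num) (by norm_num)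
      (by norm_num) (by norm_num)) (T6_proper (by norm_num) (by norm_num) (by norm_num)
      (by norm_num) (by norm_num) (by norm_num)) (fun i => by
        split_ifs
        · exact T4a_proper
        · exact T4b_proper)
  · norm_num
  · norm_num
  · norm_num
  · intro l
    rw [lab_count]
    have hsum : (∑ i : Fin (2 * m), oc (⊤ : SimpleGraph (Fin 4))
        (if i.val % 2 = 0 then T4a else T4b) l)
        = ∑ i : Fin (2 * m), (if i.val % 2 = 0 then oc (⊤ : SimpleGraph (Fin 4)) T4a l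
            else oc (⊤ : SimpleGraph (Fin 4)) T4b l) :=
      Finset.sum_congr rfl fun i _ => by split_ifs <;> rfl
    rw [hsum, sum_alt]
    simp only [T3_oc, T6_oc, T4a_oc, T4b_oc]
    ring

/-! ### The graph is nice -/

theorem nice_of {G : SimpleGraph V} (h : ∀ u, ∃ v w, v ≠ w ∧ G.Adj u v ∧ G.Adj u w) :
    Nice G := by
  intro c
  refine ⟨fun φ => ?_⟩
  obtain ⟨u, hu⟩ := c.nonempty_supp
  obtain ⟨v, w, hvw, huv, huw⟩ := h u
  have hv : v ∈ c.supp := by
    rw [ConnectedComponent.mem_supp_iff] at hu ⊢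
    rw [← hu]
    exact ConnectedComponent.sound huv.reachable.symm
  have hw : w ∈ c.supp := by
    rw [ConnectedComponent.mem_supp_iff] at hu ⊢
    rw [← hu]
    exact ConnectedComponent.sound huw.reachable.symm
  have i1 : φ ⟨u, hu⟩ ≠ φ ⟨v, hv⟩ := fun h => huv.ne (congrArg Subtype.val (φ.injective h))
  have i2 : φ ⟨u, hu⟩ ≠ φ ⟨w, hw⟩ := fun h => huw.ne (congrArg Subtype.val (φ.injective h))
  have i3 : φ ⟨v, hv⟩ ≠ φ ⟨w, hw⟩ := fun h => hvw (congrArg Subtype.val (φ.injective h))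
  omega

theorem nice_union (a b c : ℕ) : Nice (unionGraph a b c) := by
  apply nice_of
  rintro (⟨i, u⟩ | ⟨i, u⟩ | ⟨i, u⟩)
  · refine ⟨Sum.inl (i, u + 1), Sum.inl (i, u + 2), ?_, ?_, ?_⟩
    · simp
    · simp only [sum_adj_inl, boxProd_adj_right, adj3]
      revert u; decide
    · simp only [sum_adj_inl, boxProd_adj_right, adj3]
      revert u; decide
  · refine ⟨Sum.inr (Sum.inl (i, u + 1)), Sum.inr (Sum.inl (i, u + 2)), ?_, ?_, ?_⟩
    · simp
    · simp only [sum_adj_inr, sum_adj_inl, boxProd_adj_right, top_adj]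
      revert u; decide
    · simp only [sum_adj_inr, sum_adj_inl, boxProd_adj_right, top_adj]
      revert u; decide
  · refine ⟨Sum.inr (Sum.inr (i, u + 1)), Sum.inr (Sum.inr (i, u - 1)), ?_, ?_, ?_⟩
    · simp only [ne_eq, Sum.inr.injEq, Prod.mk.injEq, true_and]
      revert u; decide
    · simp only [sum_adj_inr, boxProd_adj_right, adj6]
      revert u; decide
    · simp only [sum_adj_inr, boxProd_adj_right, adj6]
      revert u; decide

/-- **Main result.** Let `G` be the disjoint union of `a` triangles, `b` copies of `K₄` and `c`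
six-cycles, with `a + b + c ≥ 1`.  Then `G` is nice, it is isomorphic to `K₄` only if
`a = c = 0` and `b = 1`, and its equitable parameter equals `4` if `b` is odd and `3` if `b` is even.
So every such graph with `b` odd, other than `K₄` itself, is nice, different from `K₄`, and has no
equitable proper `3`-labelling. -/
theorem result : ∀ a b c : ℕ, 1 ≤ a + b + c →
    Nice (unionGraph a b c) ∧
    (Nonempty (unionGraph a b c ≃g (⊤ : SimpleGraph (Fin 4))) → a = 0 ∧ b = 1 ∧ c = 0) ∧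
    chiEq (unionGraph a b c) = if Odd b then 4 else 3 := by
  intro a b c habc
  refine ⟨nice_union a b c, ?_, ?_⟩
  · rintro ⟨φ⟩
    have := Fintype.card_congr φ.toEquiv
    simp at this
    omega
  · split_ifs with hb
    · apply le_antisymm
      · exact Nat.sInf_le ⟨by norm_num, four a b c⟩
      · apply le_csInf
        · exact ⟨4, by norm_num, four a b c⟩
        · rintro k ⟨hk1, hk⟩
          by_contra hlt
          exact not_three hb (by omega) hk
    · rw [Nat.not_odd_iff_even] at hb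
      obtain ⟨m, rfl⟩ := hb
      rw [← two_mul] at habc ⊢
      apply le_antisymm
      · exact Nat.sInf_le ⟨by norm_num, three a m c⟩
      · apply le_csInf
        · exact ⟨3, by norm_num, three a m c⟩
        · rintro k ⟨hk1, hk⟩
          by_contra hlt
          exact not_two habc (by omega) hk

end Pool.Agent.Results.MP_3faef8_co.DisjointUnion
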