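import Pool.Agent.Helper84_MDG.ALLY

/-!
# Equitable proper 3-labellings of graphs of large minimum degree

Every finite graph in which every vertex has degree `0` or at least `10000` has an equitable proper
labelling with the labels 1, 2, 3.  More generally vertices of smaller degree are allowed, as long as
they are pairwise non adjacent: it is enough that there is a set `D` of vertices such that every
vertex of `D` has at least `10000` neighbours in `D`, every edge has an end in `D`, and the degree
of a vertex of `D` is more than three times the degree of each of its neighbours outside `D`.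
-/

set_option autoImplicit false

open Pool.Agent.Helper51_Equitable

namespace Pool.Agent.Results.MP_3faef8_co.MinimumDegree

/-- **Main result.** Let `G` be a finite graph and `D` a set of vertices of `G` such that every
vertex of `D` has at least `10000` neighbours in `D`, every edge has an end in `D`, and
`3 deg(u) < deg(v)` for every edge `uv` with `u` outside `D`.  Then `G` has an equitable proper
3-labelling. -/
theorem result (V : Type) [Fintype V] (G : SimpleGraph V) (D : Set V)
    (h1 : ∀ v ∈ D, 10000 ≤ (G.neighborSet v ∩ D).ncard)
    (h2 : ∀ u v, G.Adj u v → u ∈ D ∨ v ∈ D)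
    (h3 : ∀ u v, G.Adj u v → u ∉ D → 3 * (G.neighborSet u).ncard < (G.neighborSet v).ncard) :
    ∃ ℓ : Sym2 V → ℕ, IsEquitableProper G 3 ℓ := by
  refine Pool.Agent.MDG.H84.all_y V G (fun v => v ∈ D) ?_ h2 ?_
  · intro v hv
    have h : Pool.Agent.HEC.cnt (fun w => w ∈ D ∧ G.Adj v w) = (G.neighborSet v ∩ D).ncard :=
      Pool.Agent.MDG.H84.cnt_eq_ncard (fun w => w ∈ D ∧ G.Adj v w) (G.neighborSet v ∩ D)
        fun w => ⟨fun h => ⟨h.2, h.1⟩, fun h => ⟨h.2, h.1⟩⟩
    rw [h]
    exact h1 v hv
  · intro u v huv hu
    rw [Pool.Agent.MDG.H84.dg_eq_ncard, Pool.Agent.MDG.H84.dg_eq_ncard]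
    exact h3 u v huv hu

end Pool.Agent.Results.MP_3faef8_co.MinimumDegree
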